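import Pool.Agent.Q98.JF.Fin

/-!
# MP_181555_al: finite-index subgroups of `Out(F_n)` containing a term of the Johnson filtration

For a characteristic subgroup `K` of finite index of `F_n`, the subgroups of finite index of
`Aut(F_n)` or `Out(F_n)` which contain the kernel of the action on `F_n / γ_c(K)`.
-/

set_option autoImplicit false

namespace Pool.Agent.Results.MP_181555_al.JohnsonFiltration

open Pool.Agent.Q98.CG Pool.Agent.Q98.JF

/-- `K.lowerCentralSeries c` is `γ_(c+1)(K)` (`K` for `c = 0`, `[K, K]` for `c = 1`) and `AK L` the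
group of automorphisms acting trivially on `F_n / L`. -/
theorem result (n : ℕ) :
    (∀ N : Subgroup (MulAut (FreeGroup (Fin n))), Inn (FreeGroup (Fin n)) ≤ N →
      (Cong N ↔ IsCong (FreeGroup (Fin n)) N) ∧
      ∀ L : Subgroup (FreeGroup (Fin n)), L.Characteristic →
        (AK L ≤ N ↔ ∀ ψ : MulAut (FreeGroup (Fin n)),
          (∃ g : FreeGroup (Fin n), ∀ x : FreeGroup (Fin n), ψ x * (g * x * g⁻¹)⁻¹ ∈ L) →
            ψ ∈ N)) ∧
    ∀ K : Subgroup (FreeGroup (Fin n)), K.Characteristic → K.FiniteIndex →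
      (∀ (c : ℕ) (N : Subgroup (MulAut (FreeGroup (Fin n)))), N.FiniteIndex →
        AK (K.lowerCentralSeries (c + 1)) ≤ N →
        ∃ L : Subgroup (FreeGroup (Fin n)), L.Characteristic ∧ L.FiniteIndex ∧
          AK L ⊓ AK (K.lowerCentralSeries 1) ≤ N) ∧
      ((∀ N : Subgroup (MulAut (FreeGroup (Fin n))), N.FiniteIndex →
          AK (K.lowerCentralSeries 1) ≤ N → Cong N) →
        ∀ (c : ℕ) (N : Subgroup (MulAut (FreeGroup (Fin n)))), N.FiniteIndex →
          AK (K.lowerCentralSeries (c + 1)) ≤ N → Cong N) :=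
  ⟨fun _ hI => ⟨cong_iff hI, fun _ hL => out_iff hL hI⟩, fun _ h1 h2 =>
    ⟨fun c => filt (FreeGroup.closure_range_of _) h1 h2 c, fun hb =>
      cong_of (FreeGroup.closure_range_of _) h1 h2 hb⟩⟩

end Pool.Agent.Results.MP_181555_al.JohnsonFiltration
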