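import Pool.Agent.Q98.CG.All
import Pool.Agent.Q98.CG.Free

/-!
# MP_181555_al: one noncongruence subgroup of `Out(F_n)` forces superpolynomially many

`s(x)`, `c(x)` and `u(x)` are the numbers of all subgroups, of congruence and of noncongruence
subgroups of index at most `x` of `Out(F_n)`.
-/

set_option autoImplicit false

namespace Pool.Agent.Results.MP_181555_al.NoncongruenceGrowth

open Pool.Agent.Q98.CG

/-- Let `n ≥ 2`. (1) For every `A`, `x ^ A ≤ c(x)` for all large `x`. (2) If `Out(F_n)` has a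
noncongruence subgroup of index `d`, then `s(x) ≤ u(d x) (d x) ^ ⌊log₂ d⌋` for all `x`, and for
every `A`, `x ^ A ≤ u(x)` for all large `x`. (3) The congruence subgroup property for `Out(F_n)`
(as in Q1) holds if and only if there is an `A` with `u(x) < x ^ A` for arbitrarily large `x`. -/
theorem result (n : ℕ) (hn : 2 ≤ n) :
    (∀ A : ℕ, ∃ x₀ : ℕ, ∀ x : ℕ, x₀ ≤ x → ((x ^ A : ℕ) : ℕ∞) ≤ cong (FreeGroup (Fin n)) x) ∧
    (∀ N : Subgroup (MulAut (FreeGroup (Fin n))), (∀ g, MulAut.conj g ∈ N) → N.index ≠ 0 →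
      ¬ IsCong (FreeGroup (Fin n)) N →
        (∀ x : ℕ, subs (FreeGroup (Fin n)) x ≤ noncong (FreeGroup (Fin n)) (N.index * x) *
          (((N.index * x) ^ Nat.log 2 N.index : ℕ) : ℕ∞)) ∧
        ∀ A : ℕ, ∃ x₀ : ℕ, ∀ x : ℕ, x₀ ≤ x →
          ((x ^ A : ℕ) : ℕ∞) ≤ noncong (FreeGroup (Fin n)) x) ∧
    ((∀ N : Subgroup (MulAut (FreeGroup (Fin n))),
        N.Normal → N.FiniteIndex →
        (∀ g : FreeGroup (Fin n), MulAut.conj g ∈ N) →
        ∃ K : Subgroup (FreeGroup (Fin n)),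
          K.Characteristic ∧ K.FiniteIndex ∧
          ∀ ψ : MulAut (FreeGroup (Fin n)),
            (∃ g : FreeGroup (Fin n), ∀ x : FreeGroup (Fin n),
                ψ x * (g * x * g⁻¹)⁻¹ ∈ K) → ψ ∈ N) ↔
      ∃ A : ℕ, ∀ x₀ : ℕ, ∃ x : ℕ, x₀ ≤ x ∧
        noncong (FreeGroup (Fin n)) x < ((x ^ A : ℕ) : ℕ∞)) := by
  obtain ⟨m, rfl⟩ : ∃ m, n = m + 2 := ⟨n - 2, by omega⟩
  exact ⟨cong_superpoly (coordFree m), fun _ hI hN hNP =>
    ⟨many_subs hI hN hNP, noncong_superpoly (coordFree m) hI hN hNP⟩,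
    normal_iff.trans (growth_iff (coordFree m))⟩

end Pool.Agent.Results.MP_181555_al.NoncongruenceGrowth
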