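import Pool.Agent.Q134.MG.Trv

set_option autoImplicit false

/-! Finite-index subgroups of `Aut(F_n)` and their quotients which have faithful linear or
projective representations of small degree over commutative rings. -/

namespace Pool.Agent.Results.MP_181555_al.VirtualQuotients

open Pool.Agent.TH35.CH Pool.Agent.Q134.MG Pool.Agent.Results.MP_181555_al.SmallDegreeQuotients

universe u

/-- the automorphism group of the free group of rank `n` -/
abbrev AutF (n : ℕ) : Type := MulAut (FreeGroup (Fin n))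

/-- `H` has finite index in `Aut(F_n)` and `N` is the kernel of a homomorphism from `H` to
`GL_d(R)`, `[Aut(F_n) : H] d < 2 ^ m`, or of a homomorphism from `H` to `PGL_d(R)`,
`[Aut(F_n) : H] d² < 2 ^ m`. -/
def SmallKernel (n m : ℕ) (R : Type u) [CommRing R] (H N : Subgroup (AutF n)) : Prop :=
  H.index ≠ 0 ∧ ∃ d : ℕ, 0 < d ∧
    ((H.index * d < 2 ^ m ∧
        ∃ φ : H →* Matrix.GeneralLinearGroup (Fin d) R, φ.ker.map H.subtype = N) ∨
      (H.index * (d * d) < 2 ^ m ∧
        ∃ φ : H →* Matrix.ProjGenLinGroup (Fin d) R, φ.ker.map H.subtype = N))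

/-- `x` is conjugate to a transvection `x_i ↦ x_i x_j`: it is a transvection with respect to some
basis of `F_n` -/
def IsTrans {n : ℕ} (x : AutF n) : Prop := ∃ T y : AutF n, IsTransvection T ∧ x = y * T * y⁻¹

/-- the subgroup `L` contains a term of the derived series of `N` -/
def ContainsDerived {n : ℕ} (N L : Subgroup (AutF n)) : Prop :=
  ∃ s, (derivedSeries N s).map N.subtype ≤ L

theorem small {n m : ℕ} (hm : m + 5 ≤ n / 2) {T : AutF n} (hT : IsTransvection T) :
    SmallUnip.{u} T (2 ^ m) m := fun K _ _ f hd => trv_unip hm hd K f hT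

theorem exists_rep {n m : ℕ} {R : Type u} [CommRing R] [Nontrivial R] {H N : Subgroup (AutF n)}
    (h : SmallKernel n m R H N) : ∃ (D : ℕ) (F : AutF n →* Matrix.GeneralLinearGroup (Fin D) R),
      0 < D ∧ D < 2 ^ m ∧ F.ker ≤ N ∧ ∀ y : AutF n, (∀ x : AutF n, x * y * x⁻¹ ∈ N) → F y = 1 := by
  obtain ⟨hH, d, hd0, ⟨hd, φ, rfl⟩ | ⟨hd, φ, rfl⟩⟩ := h
  · obtain ⟨F, h1, h2⟩ := exists_ind' H hH hd0 φ
    exact ⟨_, F, Nat.mul_pos (Nat.pos_of_ne_zero hH) hd0, hd, h1, h2⟩
  · obtain ⟨ψ, hψ⟩ := exists_lin φ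
    obtain ⟨F, h1, h2⟩ := exists_ind' H hH (Nat.mul_pos hd0 hd0) ψ
    rw [hψ] at h1 h2
    exact ⟨_, F, Nat.mul_pos (Nat.pos_of_ne_zero hH) (Nat.mul_pos hd0 hd0), hd, h1, h2⟩

theorem trans_mem {n m k : ℕ} (hm : m + 5 ≤ n / 2) {R : Type u} [CommRing R] [Nontrivial R]
    {H N L : Subgroup (AutF n)} (h : SmallKernel n m R H N) (hL : ContainsDerived N L)
    (hk : IsUnit (k : R)) (hN : ∀ x : AutF n, IsTrans x → x ^ k ∈ N) :
    ∀ τ y : AutF n, IsTransvection τ → y * τ * y⁻¹ ∈ L := by
  have h1 : ∀ τ y : AutF n, IsTransvection τ → y * τ * y⁻¹ ∈ N := by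
    intro T y hT
    obtain ⟨D, F, -, hD, h1, h2⟩ := exists_rep h
    have h3 : F T ^ k = 1 := by
      rw [← map_pow]
      apply h2
      intro z
      rw [← conj_pow]
      exact hN _ ⟨T, z, hT, rfl⟩
    have h4 := ring_one (small hm hT) hD F hk h3
    apply h1
    rw [MonoidHom.mem_ker, map_mul, map_mul, h4, mul_one, ← map_mul, mul_inv_cancel, map_one]
  intro T y hT
  obtain ⟨s, hs⟩ := hL
  have h2 : Subgroup.normalClosure {T} ≤ N := nclosure_le fun c => h1 T c hT
  exact hs (le_dser (trv_perfect (by omega) hT) h2 s (conj_mem_nclosure T y))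

theorem one_le {n m : ℕ} {R : Type u} [CommRing R] [Nontrivial R] {H N : Subgroup (AutF n)}
    (h : SmallKernel n m R H N) : 1 ≤ m := by
  obtain ⟨D, F, h0, hD, -, -⟩ := exists_rep h
  rcases Nat.eq_zero_or_pos m with rfl | hm
  · rw [pow_zero] at hD
    omega
  · exact hm

theorem pow_mem_char {n m p e : ℕ} (hm : m + 5 ≤ n / 2) {K : Type u} [Field K] [CharP K p]
    (hp : p.Prime) (he : m ≤ p ^ e) {H N : Subgroup (AutF n)} (h : SmallKernel n m K H N) :
    ∀ x : AutF n, IsTrans x → x ^ p ^ e ∈ N := by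
  rintro _ ⟨T, y, hT, rfl⟩
  obtain ⟨D, F, hD0, hD, h1, -⟩ := exists_rep h
  have : Nonempty (Fin D) := ⟨⟨0, hD0⟩⟩
  have : Fact p.Prime := ⟨hp⟩
  have h2 := small hm hT K D F hD
  have h3 : ((F T : Matrix (Fin D) (Fin D) K) - 1) ^ p ^ e = 0 := by
    rw [← Nat.sub_add_cancel he, pow_add, h2, mul_zero]
  have h4 : (F T) ^ p ^ e = 1 := by
    apply Units.ext
    rw [Units.val_pow_eq_pow_val, Units.val_one]
    have h5 := sub_pow_char_pow_of_commute (p := p) (n := e)
      (h := Commute.one_right (F T : Matrix (Fin D) (Fin D) K))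
    rw [h3, one_pow] at h5
    exact (sub_eq_zero.1 h5.symm)
  rw [conj_pow]
  apply h1
  rw [MonoidHom.mem_ker, map_mul, map_mul, map_pow, h4, mul_one, ← map_mul, mul_inv_cancel,
    map_one]

/-- Let `m + 5 ≤ ⌊n / 2⌋`.
(1) Let `R ≠ 0` be a commutative ring, let `N` be the kernel of a homomorphism from a subgroup `H`
of finite index in `Aut(F_n)` to `GL_d(R)`, `[Aut(F_n) : H] d < 2 ^ m`, or to `PGL_d(R)`,
`[Aut(F_n) : H] d² < 2 ^ m`, and let `L` be a subgroup containing a term of the derived series of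
`N`. If `k` is invertible in `R` and `N` contains the `k`-th powers of the transvections, then `L`
has finite index and is a congruence subgroup.
(2) If all positive integers are invertible in `R` and `L ≤ N` has finite index in `Aut(F_n)`, then
`L` is a congruence subgroup.
(3) If `R = K` is a field of characteristic `p > 0` and `p ^ e ≥ m`, then `N` contains the
`p ^ e`-th powers of the transvections.
(4) If `N` is such a kernel for fields `K`, `K'` of different characteristics, then `L` has finite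
index and is a congruence subgroup.
In (1), (2), (4) the subgroup `L` contains all transvections (with respect to all bases). -/
theorem result (n m : ℕ) (hm : m + 5 ≤ n / 2) :
    (∀ (R : Type u) [CommRing R] [Nontrivial R] (H N L : Subgroup (AutF n)),
      SmallKernel n m R H N → ContainsDerived N L →
      (∀ k : ℕ, IsUnit (k : R) → (∀ x, IsTrans x → x ^ k ∈ N) →
        (∀ x, IsTrans x → x ∈ L) ∧ L.FiniteIndex ∧ IsCongruence L) ∧
      ((∀ k : ℕ, 0 < k → IsUnit (k : R)) → L ≤ N → L.FiniteIndex →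
        (∀ x, IsTrans x → x ∈ L) ∧ IsCongruence L)) ∧
    (∀ (K : Type u) [Field K] (p e : ℕ) [CharP K p], p.Prime → m ≤ p ^ e →
      ∀ H N : Subgroup (AutF n), SmallKernel n m K H N → ∀ x, IsTrans x → x ^ p ^ e ∈ N) ∧
    (∀ (K K' : Type u) [Field K] [Field K'] (p q : ℕ) [CharP K p] [CharP K' q], p ≠ q →
      ∀ H H' N L : Subgroup (AutF n), SmallKernel n m K H N → SmallKernel n m K' H' N →
        ContainsDerived N L → (∀ x, IsTrans x → x ∈ L) ∧ L.FiniteIndex ∧ IsCongruence L) := by
  have concl : ∀ L : Subgroup (AutF n),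
      (∀ τ y : AutF n, IsTransvection τ → y * τ * y⁻¹ ∈ L) →
      (∀ x, IsTrans x → x ∈ L) ∧ L.FiniteIndex ∧ IsCongruence L := by
    intro L hL
    refine ⟨?_, congruence_of (by omega) hL⟩
    rintro _ ⟨T, y, hT, rfl⟩
    exact hL T y hT
  have main : ∀ (R : Type u) [CommRing R] [Nontrivial R] (H N L : Subgroup (AutF n)),
      SmallKernel n m R H N → ContainsDerived N L →
      (∀ k : ℕ, IsUnit (k : R) → (∀ x, IsTrans x → x ^ k ∈ N) →
        (∀ x, IsTrans x → x ∈ L) ∧ L.FiniteIndex ∧ IsCongruence L) :=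
    fun R _ _ H N L h hL k hk hN => concl L (trans_mem hm h hL hk hN)
  have two : ∀ (K K' : Type u) [Field K] [Field K'] (p q : ℕ) [CharP K p] [CharP K' q], p ≠ q →
      p ≠ 0 → ∀ H H' N L : Subgroup (AutF n), SmallKernel n m K H N → SmallKernel n m K' H' N →
        ContainsDerived N L → (∀ x, IsTrans x → x ∈ L) ∧ L.FiniteIndex ∧ IsCongruence L := by
    intro K K' _ _ p q _ _ hpq hp0 H H' N L h h' hL
    have hp : p.Prime := (CharP.char_is_prime_or_zero K p).resolve_right hp0
    have hmp : m ≤ p ^ m := (Nat.lt_pow_self hp.one_lt).le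
    refine main K' H' N L h' hL (p ^ m) ?_ (pow_mem_char hm hp hmp h)
    apply IsUnit.mk0
    intro h0
    rw [CharP.cast_eq_zero_iff K' q] at h0
    rcases CharP.char_is_prime_or_zero K' q with hq | hq
    · exact hpq ((Nat.prime_dvd_prime_iff_eq hq hp).1 (hq.dvd_of_dvd_pow h0)).symm
    · rw [hq, zero_dvd_iff] at h0
      exact hp0 (pow_eq_zero_iff (Nat.one_le_iff_ne_zero.1 (one_le h')) |>.1 h0)
  refine ⟨fun R _ _ H N L h hL => ⟨main R H N L h hL, ?_⟩, ?_, ?_⟩
  · intro hR hLN hfin
    have := hfin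
    have : L.normalCore.FiniteIndex := inferInstance
    obtain ⟨h1, -, h2⟩ := main R H N L h hL L.normalCore.index (hR _ (Nat.pos_of_ne_zero
      Subgroup.FiniteIndex.index_ne_zero)) (by
        intro x _
        exact hLN (L.normalCore_le (Subgroup.pow_index_mem _ x)))
    exact ⟨h1, h2⟩
  · intro K _ p e _ hp he H N h
    exact pow_mem_char hm hp he h
  · intro K K' _ _ p q _ _ hpq H H' N L h h' hL
    rcases eq_or_ne p 0 with hp | hp
    · have hq : q ≠ 0 := fun hq => hpq (hp.trans hq.symm)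
      exact two K' K q p hpq.symm hq H' H N L h' h hL
    · exact two K K' p q hpq hp H H' N L h h' hL

end Pool.Agent.Results.MP_181555_al.VirtualQuotients
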